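import Mathlib
import Pool.Agent.TTP.Weighted

/-!
# Three-term partitions with prime pairwise products plus one: the smaller of `y, z` is large
for almost all `n`
-/

namespace Pool.Agent.Results.MP_dfa860_nt.LeastEntry

open Filter Topology Finset Pool.Agent.TTP

noncomputable section

/-- `(x, y, z)` is admissible for `n` -/
def Admissible (n x y z : ℕ) : Prop :=
  1 ≤ x ∧ 1 ≤ y ∧ 1 ≤ z ∧ x + y + z = n ∧ (x = 1 ∨ x = 2 ∨ x = 6) ∧
    (x * y + 1).Prime ∧ (x * z + 1).Prime ∧ (y * z + 1).Prime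

/-- the integers `n ≤ X` with an admissible triple such that `min y z ≤ f n` -/
def early (f : ℕ → ℝ) (X : ℕ) : Set ℕ :=
  {n : ℕ | 3 ≤ n ∧ n ≤ X ∧ ∃ x y z : ℕ, Admissible n x y z ∧ ((min y z : ℕ) : ℝ) ≤ f n}

/-- `(log n)^2 log log n` -/
def g (n : ℕ) : ℝ := (Real.log n) ^ 2 * Real.log (Real.log n)

/-- the counting set with a natural bound -/
def E (X B : ℕ) : Set ℕ :=
  {n : ℕ | 3 ≤ n ∧ n ≤ X ∧ ∃ x y z : ℕ, Admissible n x y z ∧ min y z ≤ B}

theorem Admissible.symm {n x y z : ℕ} (h : Admissible n x y z) : Admissible n x z y := by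
  obtain ⟨h1, h2, h3, h4, h5, h6, h7, h8⟩ := h
  refine ⟨h1, h3, h2, by omega, h5, h7, h6, ?_⟩
  rw [mul_comm z y]
  exact h8

theorem E_finite (X B : ℕ) : (E X B).Finite :=
  (Set.finite_Icc 3 X).subset (fun _ hn => ⟨hn.1, hn.2.1⟩)

/-- the `z` for given `x, y` -/
def ZZ (x y X : ℕ) : Finset ℕ := if y = x then VV x 1 X else TT x y X

theorem card_E_le (X B : ℕ) : (E X B).ncard ≤
    ∑ x ∈ ({1, 2, 6} : Finset ℕ), ∑ y ∈ VV x 1 B, (ZZ x y X).card := by
  have hsub : E X B ⊆ ((({1, 2, 6} : Finset ℕ).biUnion fun x => (VV x 1 B).biUnion fun y =>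
      (ZZ x y X).image (fun z => x + y + z) : Finset ℕ) : Set ℕ) := by
    intro n hn
    obtain ⟨h1, h2, x, y0, z0, h3, h4⟩ := hn
    -- order the pair
    obtain ⟨y, z, h5, h6⟩ : ∃ y z : ℕ, Admissible n x y z ∧ y ≤ B := by
      rcases le_total y0 z0 with h | h
      · exact ⟨y0, z0, h3, by rwa [min_eq_left h] at h4⟩
      · exact ⟨z0, y0, h3.symm, by rwa [min_eq_right h] at h4⟩
    obtain ⟨a1, a2, a3, a4, a5, a6, a7, a8⟩ := h5
    rw [Finset.mem_coe, Finset.mem_biUnion]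
    refine ⟨x, by simpa using a5, ?_⟩
    rw [Finset.mem_biUnion]
    refine ⟨y, ?_, ?_⟩
    · unfold VV
      rw [Finset.mem_filter, Finset.mem_Icc]
      exact ⟨⟨a2, h6⟩, a6⟩
    · rw [Finset.mem_image]
      refine ⟨z, ?_, a4⟩
      unfold ZZ
      split_ifs
      · unfold VV
        rw [Finset.mem_filter, Finset.mem_Icc]
        exact ⟨⟨a3, by omega⟩, a7⟩
      · unfold TT
        rw [Finset.mem_filter, Finset.mem_Icc]
        exact ⟨⟨a3, by omega⟩, a7, a8⟩
  refine (Set.ncard_le_ncard hsub (Finset.finite_toSet _)).trans ?_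
  rw [Set.ncard_coe_finset]
  refine Finset.card_biUnion_le.trans ?_
  apply Finset.sum_le_sum
  intro x _
  refine Finset.card_biUnion_le.trans ?_
  apply Finset.sum_le_sum
  intro y _
  exact Finset.card_image_le

theorem sum_ZZ_le (x X B : ℕ) :
    ∑ y ∈ VV x 1 B, (ZZ x y X).card ≤ (VV x 1 X).card + ∑ y ∈ YY x B, (TT x y X).card := by
  rw [← Finset.sum_filter_add_sum_filter_not (VV x 1 B) (fun y => y = x)]
  apply add_le_add
  · have h1 : (VV x 1 B).filter (fun y => y = x) ⊆ {x} := by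
      intro y hy
      rw [Finset.mem_filter] at hy
      rw [Finset.mem_singleton]
      exact hy.2
    refine (Finset.sum_le_sum_of_subset h1).trans ?_
    rw [Finset.sum_singleton]
    unfold ZZ
    rw [if_pos rfl]
  · apply le_of_eq
    unfold YY
    apply Finset.sum_congr rfl
    intro y hy
    rw [Finset.mem_filter] at hy
    unfold ZZ
    rw [if_neg hy.2]

/-- the bound for one `x` -/
theorem inner_bound (x X B : ℕ) (hx : x ∣ 6) (hX : 2 ≤ X) (hX2 : (2 : ℝ) ^ 24 ≤ √(X : ℝ))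
    (hB : 16 ≤ B) :
    ((∑ y ∈ VV x 1 B, (ZZ x y X).card : ℕ) : ℝ) ≤ 104 * X / Real.log X +
      1843200000 * X / (Real.log X) ^ 2 * (B / Real.log B) + 2 * B * √(X : ℝ) := by
  have hx0 : 0 < x := Nat.pos_of_dvd_of_pos hx (by norm_num)
  have hX1 : (1 : ℝ) < X := by exact_mod_cast (by omega : 1 < X)
  have hX0 : (0 : ℝ) < X := by linarith
  have hL : 0 < Real.log X := Real.log_pos hX1
  have h1 : ((∑ y ∈ VV x 1 B, (ZZ x y X).card : ℕ) : ℝ) ≤
      ((VV x 1 X).card : ℝ) + ∑ y ∈ YY x B, ((TT x y X).card : ℝ) := by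
    exact_mod_cast sum_ZZ_le x X B
  have h2 : ((VV x 1 X).card : ℝ) ≤ 104 * X / Real.log X := by
    refine (card_VV x 1 X hx0 hX).trans ?_
    have h3 := sg_le_two hx
    have h4 : (52 * sg x * X : ℝ) ≤ 104 * X := by
      have : 52 * sg x ≤ 104 := by linarith
      exact mul_le_mul_of_nonneg_right this hX0.le
    gcongr
  have hlogt : Real.log (√(X : ℝ)) = Real.log X / 2 := Real.log_sqrt hX0.le
  have h3 : ∀ y ∈ YY x B, ((TT x y X).card : ℝ) ≤
      36864 * X / (Real.log X) ^ 2 * sg (6 * (y * kk x y)) + 2 * √(X : ℝ) := by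
    intro y hy
    unfold YY VV at hy
    rw [Finset.mem_filter, Finset.mem_filter, Finset.mem_Icc] at hy
    have h4 := card_TT_real x y (kk x y) X (√(X : ℝ)) (dist_kk x y) hx hy.1.1.1 (kk_pos hy.2) hX2
    rw [hlogt] at h4
    have h5 : 9216 * sg (6 * (y * kk x y)) * (X : ℝ) / (Real.log X / 2) ^ 2 =
        36864 * X / (Real.log X) ^ 2 * sg (6 * (y * kk x y)) := by
      field_simp
      ring
    rw [h5] at h4
    exact h4
  have h4 : ∑ y ∈ YY x B, ((TT x y X).card : ℝ) ≤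
      36864 * X / (Real.log X) ^ 2 * (50000 * B / Real.log B) + B * (2 * √(X : ℝ)) := by
    refine (Finset.sum_le_sum h3).trans ?_
    rw [Finset.sum_add_distrib, ← Finset.mul_sum, Finset.sum_const, nsmul_eq_mul]
    have h5 := sum_YY x B hx hB
    have h6 : ((YY x B).card : ℝ) ≤ B := by
      have : (YY x B).card ≤ B := by
        unfold YY VV
        refine (Finset.card_filter_le _ _).trans ((Finset.card_filter_le _ _).trans ?_)
        rw [Nat.card_Icc, Nat.add_sub_cancel]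
      exact_mod_cast this
    gcongr
  have h5 : 36864 * (X : ℝ) / (Real.log X) ^ 2 * (50000 * B / Real.log B) =
      1843200000 * X / (Real.log X) ^ 2 * (B / Real.log B) := by ring
  rw [h5] at h4
  linarith

theorem card_E_bound (X B : ℕ) (hX : 2 ≤ X) (hX2 : (2 : ℝ) ^ 24 ≤ √(X : ℝ)) (hB : 16 ≤ B) :
    ((E X B).ncard : ℝ) ≤ 3 * (104 * X / Real.log X +
      1843200000 * X / (Real.log X) ^ 2 * (B / Real.log B) + 2 * B * √(X : ℝ)) := by
  have h1 : ((E X B).ncard : ℝ) ≤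
      ((∑ x ∈ ({1, 2, 6} : Finset ℕ), ∑ y ∈ VV x 1 B, (ZZ x y X).card : ℕ) : ℝ) := by
    exact_mod_cast card_E_le X B
  refine h1.trans ?_
  have h2 : (∑ x ∈ ({1, 2, 6} : Finset ℕ), ∑ y ∈ VV x 1 B, (ZZ x y X).card) =
      (∑ y ∈ VV 1 1 B, (ZZ 1 y X).card) + ((∑ y ∈ VV 2 1 B, (ZZ 2 y X).card) +
        (∑ y ∈ VV 6 1 B, (ZZ 6 y X).card)) := by
    rw [Finset.sum_insert (by decide), Finset.sum_insert (by decide), Finset.sum_singleton]
  rw [h2, Nat.cast_add, Nat.cast_add]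
  have h3 := inner_bound 1 X B (by norm_num) hX hX2 hB
  have h4 := inner_bound 2 X B (by norm_num) hX hX2 hB
  have h5 := inner_bound 6 X B (by norm_num) hX hX2 hB
  linarith

theorem log_ge_one {n : ℕ} (hn : 3 ≤ n) : 1 ≤ Real.log n := by
  have h0 : (3 : ℝ) ≤ n := by exact_mod_cast hn
  rw [Real.le_log_iff_exp_le (by linarith)]
  have := Real.exp_one_lt_d9
  linarith

theorem g_mono {n X : ℕ} (hn : 3 ≤ n) (h : n ≤ X) : g n ≤ g X := by
  unfold g
  have hn0 : (3 : ℝ) ≤ n := by exact_mod_cast hn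
  have hnX : (n : ℝ) ≤ X := by exact_mod_cast h
  have h1 := log_ge_one hn
  have h2 : Real.log n ≤ Real.log X := Real.log_le_log (by linarith) hnX
  have h3 : 0 ≤ Real.log (Real.log n) := Real.log_nonneg h1
  have h4 : Real.log (Real.log n) ≤ Real.log (Real.log X) := Real.log_le_log (by linarith) h2
  gcongr

theorem early_sub {κ : ℝ} (hκ : 0 ≤ κ) (X : ℕ) :
    early (fun n => κ * g n) X ⊆ E X ⌊κ * g X⌋₊ := by
  intro n hn
  obtain ⟨h1, h2, x, y, z, h3, h4⟩ := hn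
  refine ⟨h1, h2, x, y, z, h3, ?_⟩
  apply Nat.le_floor
  refine h4.trans ?_
  exact mul_le_mul_of_nonneg_left (g_mono h1 h2) hκ

/-- the bound for one `X` -/
theorem early_card {κ : ℝ} (hκ : 0 < κ) (X : ℕ) (hX : 2 ≤ X) (hX2 : (2 : ℝ) ^ 24 ≤ √(X : ℝ))
    (hL16 : 16 ≤ Real.log X) (hκL : 2 ≤ κ * Real.log X)
    (hL3 : (Real.log X) ^ 3 ≤ 8 * √(X : ℝ)) :
    ((early (fun n => κ * g n) X).ncard : ℝ) ≤
      312 * X / Real.log X + 6000000000 * κ * X := by
  set L : ℝ := Real.log X with hL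
  set LL : ℝ := Real.log L with hLL
  have hL0 : 0 < L := by linarith
  have hLL1 : 1 ≤ LL := by
    rw [hLL, Real.le_log_iff_exp_le hL0]
    have := Real.exp_one_lt_d9
    linarith
  have hLLL : LL ≤ L := by
    have := Real.log_le_sub_one_of_pos hL0
    linarith
  have hX0 : (0 : ℝ) < X := by exact_mod_cast (by omega : 0 < X)
  have hg : g X = L ^ 2 * LL := rfl
  set B : ℕ := ⌊κ * g X⌋₊ with hB
  have hBle : (B : ℝ) ≤ κ * (L ^ 2 * LL) := by
    rw [← hg]
    apply Nat.floor_le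
    rw [hg]
    positivity
  have hBge : L ≤ (B : ℝ) := by
    have h1 : κ * g X < B + 1 := Nat.lt_floor_add_one _
    rw [hg] at h1
    have h2 : 2 * L ≤ κ * (L ^ 2 * LL) := by
      calc 2 * L = (2 * L) * 1 := by ring
        _ ≤ ((κ * L) * L) * LL := by gcongr
        _ = _ := by ring
    linarith
  have hB16 : 16 ≤ B := by
    have : (16 : ℝ) ≤ B := by linarith
    exact_mod_cast this
  have hlogB : LL ≤ Real.log B := Real.log_le_log hL0 hBge
  have hB0 : (0 : ℝ) < B := by linarith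
  have h1 : (early (fun n => κ * g n) X).ncard ≤ (E X B).ncard :=
    Set.ncard_le_ncard (early_sub hκ.le X) (E_finite _ _)
  have h2 : ((early (fun n => κ * g n) X).ncard : ℝ) ≤ ((E X B).ncard : ℝ) := by
    exact_mod_cast h1
  refine h2.trans ((card_E_bound X B hX hX2 hB16).trans ?_)
  have h3 : (B : ℝ) / Real.log B ≤ κ * L ^ 2 := by
    calc (B : ℝ) / Real.log B ≤ κ * (L ^ 2 * LL) / LL := by
          gcongr
      _ = κ * L ^ 2 := by
          field_simp
  have h4 : 1843200000 * (X : ℝ) / L ^ 2 * (B / Real.log B) ≤ 1843200000 * κ * X := by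
    calc 1843200000 * (X : ℝ) / L ^ 2 * (B / Real.log B) ≤
        1843200000 * (X : ℝ) / L ^ 2 * (κ * L ^ 2) := by gcongr
      _ = _ := by
          field_simp
  have hs0 : 0 ≤ √(X : ℝ) := Real.sqrt_nonneg _
  have h5 : 2 * (B : ℝ) * √(X : ℝ) ≤ 16 * κ * X := by
    have h6 : (B : ℝ) ≤ κ * L ^ 3 := by
      calc (B : ℝ) ≤ κ * (L ^ 2 * LL) := hBle
        _ ≤ κ * (L ^ 2 * L) := by gcongr
        _ = κ * L ^ 3 := by ring
    calc 2 * (B : ℝ) * √(X : ℝ) ≤ 2 * (κ * (8 * √(X : ℝ))) * √(X : ℝ) := by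
          have : (B : ℝ) ≤ κ * (8 * √(X : ℝ)) := h6.trans (by gcongr)
          gcongr
      _ = 16 * κ * (√(X : ℝ) * √(X : ℝ)) := by ring
      _ = 16 * κ * X := by rw [Real.mul_self_sqrt hX0.le]
  have h7 : 312 * (X : ℝ) / L = 3 * (104 * X / L) := by ring
  rw [h7]
  have h8 : 0 ≤ κ * X := by positivity
  nlinarith

/-- the bound for all large `X` -/
theorem almost_all (ε : ℝ) (hε : 0 < ε) : ∃ X₀ : ℕ, ∀ X : ℕ, X₀ ≤ X →
    ((early (fun n => 1 / 10 ^ 10 * ε * g n) X).ncard : ℝ) ≤ ε * X := by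
  have h1 : Tendsto (fun X : ℕ => Real.log X) atTop atTop :=
    Real.tendsto_log_atTop.comp tendsto_natCast_atTop_atTop
  have h2 : Tendsto (fun X : ℕ => √(X : ℝ)) atTop atTop :=
    Real.tendsto_sqrt_atTop.comp tendsto_natCast_atTop_atTop
  have h3 : ∀ᶠ X : ℕ in atTop, (Real.log (√(X : ℝ))) ^ 3 ≤ √(X : ℝ) := by
    have h4 := (Real.isLittleO_pow_log_id_atTop (n := 3)).bound (c := 1) one_pos
    have h5 := h2.eventually h4
    filter_upwards [h5] with X hX
    rw [one_mul, id, Real.norm_of_nonneg (Real.sqrt_nonneg _)] at hX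
    exact (le_abs_self _).trans hX
  have h4 := (h1.eventually_ge_atTop 16).and ((h1.eventually_ge_atTop (3120 / ε)).and
    ((h1.eventually_ge_atTop (2 * 10 ^ 10 / ε)).and
      ((h2.eventually_ge_atTop ((2 : ℝ) ^ 24)).and (h3.and (eventually_ge_atTop 2)))))
  obtain ⟨X₀, hX₀⟩ := eventually_atTop.1 h4
  refine ⟨X₀, fun X hX => ?_⟩
  obtain ⟨a1, a2, a3, a4, a5, a6⟩ := hX₀ X hX
  have hX0 : (0 : ℝ) < X := by exact_mod_cast (by omega : 0 < X)
  have hL0 : 0 < Real.log X := by linarith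
  have hκL : 2 ≤ 1 / 10 ^ 10 * ε * Real.log X := by
    rw [div_le_iff₀ hε] at a3
    linarith
  have hL3 : (Real.log X) ^ 3 ≤ 8 * √(X : ℝ) := by
    rw [Real.log_sqrt hX0.le] at a5
    have : (Real.log X / 2) ^ 3 = (Real.log X) ^ 3 / 8 := by ring
    rw [this] at a5
    linarith
  have h5 := early_card (κ := 1 / 10 ^ 10 * ε) (by positivity) X a6 a4 a1 hκL hL3
  refine h5.trans ?_
  have h6 : 312 * (X : ℝ) / Real.log X ≤ ε / 10 * X := by
    rw [div_le_iff₀ hL0]
    rw [div_le_iff₀ hε] at a2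
    nlinarith
  have h7 : 6000000000 * (1 / 10 ^ 10 * ε) * X = 6 / 10 * (ε * X) := by ring
  rw [h7]
  have h8 : 0 ≤ ε * X := by positivity
  linarith

/-- For every `ε > 0` and all large `X`, all but at most `ε X` of the integers `3 ≤ n ≤ X` have the
property that every admissible triple `(x, y, z)` for `n` has
`min(y, z) > 10⁻¹⁰ ε (log n)² log log n`. -/
theorem result (ε : ℝ) (hε : 0 < ε) : ∃ X₀ : ℕ, ∀ X : ℕ, X₀ ≤ X →
    (Set.ncard {n : ℕ | 3 ≤ n ∧ n ≤ X ∧ ∃ x y z : ℕ, Admissible n x y z ∧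
      ((min y z : ℕ) : ℝ) ≤ 1 / 10 ^ 10 * ε * ((Real.log n) ^ 2 * Real.log (Real.log n))} : ℝ) ≤
      ε * X :=
  almost_all ε hε

end

end Pool.Agent.Results.MP_dfa860_nt.LeastEntry
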