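import Mathlib

/-!
# Admissible numbers in arithmetic progressions
-/

set_option autoImplicit false

namespace Pool.Agent.Results.MP_dfa860_nt.Progressions

/-- There is a triple which is admissible for `n`. -/
def Adm (n : ℕ) : Prop :=
  ∃ x y z : ℕ, 1 ≤ x ∧ 1 ≤ y ∧ 1 ≤ z ∧ x + y + z = n ∧ (x = 1 ∨ x = 2 ∨ x = 6) ∧
    (x * y + 1).Prime ∧ (x * z + 1).Prime ∧ (y * z + 1).Prime

/-- The triple `(x, x, z)`. -/
theorem adm_of_prime {x z : ℕ} (hx : x = 1 ∨ x = 2 ∨ x = 6) (hz : 1 ≤ z)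
    (hp : (x * z + 1).Prime) : Adm (2 * x + z) := by
  refine ⟨x, x, z, ?_, ?_, hz, by ring, hx, ?_, hp, hp⟩
  · rcases hx with rfl | rfl | rfl <;> norm_num
  · rcases hx with rfl | rfl | rfl <;> norm_num
  · rcases hx with rfl | rfl | rfl <;> norm_num

theorem infinite_of_coprime {x : ℕ} (hx : x = 1 ∨ x = 2 ∨ x = 6) {q : ℕ} (hq : 0 < q) {a : ℤ}
    (h : IsCoprime ((x : ℤ) * (a - 2 * x) + 1) (q : ℤ)) :
    {n : ℕ | Adm n ∧ (n : ℤ) ≡ a [ZMOD q]}.Infinite := by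
  have hx0 : 0 < x := by rcases hx with rfl | rfl | rfl <;> norm_num
  rw [Set.infinite_iff_exists_gt]
  intro N
  have h1 : IsCoprime ((x : ℤ) * (a - 2 * x) + 1) (x : ℤ) :=
    ⟨1, -(a - 2 * x), by ring⟩
  have h2 : IsCoprime ((x : ℤ) * (a - 2 * x) + 1) ((x * q : ℕ) : ℤ) := by
    push_cast
    exact h1.mul_right h
  obtain ⟨p, hpN, hpp, hpe⟩ := Nat.forall_exists_prime_gt_and_zmodEq (x * N + 1)
    (q := x * q) (by positivity) h2
  have h3 : (x : ℤ) ∣ (p : ℤ) - 1 := by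
    have h4 : ((x * q : ℕ) : ℤ) ∣ (x : ℤ) * (a - 2 * x) + 1 - p := hpe.dvd
    have h5 : (x : ℤ) ∣ (x : ℤ) * (a - 2 * x) + 1 - p :=
      dvd_trans ⟨(q : ℤ), by push_cast; ring⟩ h4
    obtain ⟨c, hc⟩ := h5
    exact ⟨(a - 2 * x) - c, by linear_combination -hc⟩
  obtain ⟨w, hw⟩ := h3
  have hw0 : 0 ≤ w := by
    by_contra hneg
    push Not at hneg
    have : (x : ℤ) * w < 0 := mul_neg_of_pos_of_neg (by exact_mod_cast hx0) hneg
    have h6 : (1 : ℤ) ≤ p := by exact_mod_cast hpp.one_lt.le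
    linarith
  obtain ⟨z, rfl⟩ := Int.eq_ofNat_of_zero_le hw0
  have hpz : p = x * z + 1 := by
    have : (p : ℤ) = x * z + 1 := by linarith
    exact_mod_cast this
  subst hpz
  have hzN : N < z := by
    have : x * N < x * z := by omega
    exact lt_of_mul_lt_mul_left this (Nat.zero_le x)
  refine ⟨2 * x + z, ⟨adm_of_prime hx (by omega) hpp, ?_⟩, by omega⟩
  have h4 : ((x * q : ℕ) : ℤ) ∣ (x : ℤ) * (a - 2 * x) + 1 - ((x * z + 1 : ℕ) : ℤ) := hpe.dvd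
  obtain ⟨c, hc⟩ := h4
  have h7 : (x : ℤ) * (a - (2 * x + z)) = x * (q * c) := by
    push_cast at hc
    linear_combination hc
  have h8 : a - (2 * x + z) = q * c :=
    mul_left_cancel₀ (by exact_mod_cast hx0.ne') h7
  rw [Int.modEq_iff_dvd]
  exact ⟨c, by push_cast; linarith⟩

theorem result :
    (∀ (q : ℕ) (a : ℤ), 0 < q →
      (IsCoprime (a - 1) (q : ℤ) ∨ IsCoprime (2 * a - 7) (q : ℤ) ∨
        IsCoprime (6 * a - 71) (q : ℤ)) →
      {n : ℕ | Adm n ∧ (n : ℤ) ≡ a [ZMOD q]}.Infinite) ∧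
    (∀ (l k : ℕ) (a : ℤ), l.Prime → (l ≠ 5 ∨ ¬ a ≡ 1 [ZMOD 5]) →
      {n : ℕ | Adm n ∧ (n : ℤ) ≡ a [ZMOD ((l ^ k : ℕ) : ℤ)]}.Infinite) := by
  have key : ∀ (q : ℕ) (a : ℤ), 0 < q →
      (IsCoprime (a - 1) (q : ℤ) ∨ IsCoprime (2 * a - 7) (q : ℤ) ∨
        IsCoprime (6 * a - 71) (q : ℤ)) →
      {n : ℕ | Adm n ∧ (n : ℤ) ≡ a [ZMOD q]}.Infinite := by
    intro q a hq h
    rcases h with h | h | h
    · refine infinite_of_coprime (x := 1) (Or.inl rfl) hq ?_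
      convert h using 1; push_cast; ring
    · refine infinite_of_coprime (x := 2) (Or.inr (Or.inl rfl)) hq ?_
      convert h using 1; push_cast; ring
    · refine infinite_of_coprime (x := 6) (Or.inr (Or.inr rfl)) hq ?_
      convert h using 1; push_cast; ring
  refine ⟨key, ?_⟩
  intro l k a hl h5
  refine key _ _ (pow_pos hl.pos k) ?_
  have hl' : Prime (l : ℤ) := Nat.prime_iff_prime_int.1 hl
  by_contra hcon
  push Not at hcon
  obtain ⟨c1, c2, -⟩ := hcon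
  have d : ∀ m : ℤ, ¬ IsCoprime m ((l ^ k : ℕ) : ℤ) → (l : ℤ) ∣ m := by
    intro m hm
    by_contra hd
    apply hm
    push_cast
    exact ((hl'.coprime_iff_not_dvd.2 hd).symm).pow_right
  have e1 := d _ c1
  have e2 := d _ c2
  have e3 : (l : ℤ) ∣ 5 := by
    have : (5 : ℤ) = 2 * (a - 1) - (2 * a - 7) := by ring
    rw [this]
    exact dvd_sub (e1.mul_left 2) e2
  have e4 : l = 5 := by
    have : l ∣ 5 := by exact_mod_cast e3
    exact (Nat.prime_dvd_prime_iff_eq hl (by norm_num)).1 this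
  rcases h5 with h5 | h5
  · exact h5 e4
  · subst e4
    apply h5
    rw [Int.modEq_comm, Int.modEq_iff_dvd]
    exact_mod_cast e1

end Pool.Agent.Results.MP_dfa860_nt.Progressions
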